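import Pool.Agent.Q52.LU.Gen

/-!
# Project LU, job CHI: the formula of integration in the chart
-/

set_option autoImplicit false

namespace Pool.Agent.Q52.LU

open Pool.Agent.Q77.LU MeasureTheory Matrix Set Filter Topology
open scoped ContDiff Matrix.Norms.Frobenius

noncomputable section

section lat

variable {N n D l : ℕ} {G : Subgroup (UU N)}

lemma gauge_gauge (γ γ' : (Fin D → ZMod l) → G) (U : Link D l → G) :
    gauge γ (gauge γ' U) = gauge (fun x => γ x * γ' x) U := by
  funext e
  simp only [Q77.LU.gauge, mul_assoc, _root_.mul_inv_rev]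

lemma gauge_one (U : Link D l → G) : gauge (fun _ => 1) U = U := by
  funext e
  simp only [Q77.LU.gauge, one_mul, inv_one, mul_one]

lemma centre_centre (z z' : Fin D → G) (U : Link D l → G) :
    centre z (centre z' U) = centre (fun i => z i * z' i) U := by
  funext e
  simp only [centre]
  split_ifs <;> simp only [mul_assoc]

lemma centre_one (U : Link D l → G) : centre (fun _ => 1) U = U := by
  funext e
  simp only [centre, one_mul, ite_self]

lemma centre_gauge (z : Fin D → G) (hz : ∀ i, z i ∈ Subgroup.center G)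
    (γ : (Fin D → ZMod l) → G) (U : Link D l → G) :
    centre z (gauge γ U) = gauge γ (centre z U) := by
  funext e
  simp only [centre, Q77.LU.gauge]
  split_ifs with h
  · have h1 := Subgroup.mem_center_iff.1 (hz e.2) (γ e.1)
    rw [← mul_assoc, ← mul_assoc, ← h1]
    simp only [mul_assoc]
  · rfl

/-- multipliers of the centre transformations on the links outside of the tree -/
def cz (z : Fin D → Subgroup.center G) : NT D l → G :=
  fun e => if e.1.1 e.1.2 = -1 then ((z e.1.2 : Subgroup.center G) : G) else 1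

lemma ext_cz (z : Fin D → Subgroup.center G) (V : NT D l → G) :
    ext (cz z * V) = centre (fun i => ((z i : Subgroup.center G) : G)) (ext V) := by
  classical
  funext e
  by_cases h : inT e
  · have h1 : e.1 e.2 ≠ -1 := h.2
    simp only [Q77.LU.ext, centre, h, not_true_eq_false, dite_false, if_neg h1]
  · simp only [Q77.LU.ext, centre, h, not_false_eq_true, dite_true, Pi.mul_apply, cz]
    split_ifs with h2
    · rfl
    · rw [one_mul]

lemma ext_inj {V V' : NT D l → G} (h : ext V = ext V') : V = V' := by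
  classical
  funext e
  have h1 := congrFun h e.1
  simp only [Q77.LU.ext, e.2, not_false_eq_true, dite_true] at h1
  exact h1

lemma ext_tree (V : NT D l → G) (e : Link D l) (he : inT e) : ext V e = 1 := by
  classical
  simp only [Q77.LU.ext, he, not_true_eq_false, dite_false]

lemma cont_ext : Continuous (fun V : NT D l → G => ext V) := by
  classical
  refine continuous_pi fun e => ?_
  by_cases h : inT e
  · simp only [Q77.LU.ext, h, not_true_eq_false, dite_false]
    exact continuous_const
  · simp only [Q77.LU.ext, h, not_false_eq_true, dite_true]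
    exact continuous_apply _

end lat

section adj

variable {N n D l : ℕ} {G : Subgroup (UU N)} {B : LieBasis G n} [NeZero l] (dc : Dec B D l)

lemma mp_sg (hG : IsClosed (G : Set (UU N))) (h6 : S_SYMM) (h : G) :
    MeasurePreserving (dc.sg h) (volume : Measure ((Fin D × Fin n → ℝ) × (Fin dc.M → ℝ)))
      volume ∧ MeasurableEmbedding (dc.sg h) := by
  have hnx : ∀ (k : G) x, nx (dc.sg k x) = nx x := fun k x => by
    obtain ⟨-, e1, e2, -⟩ := h6 N n D l G hG B dc k x
    unfold nx
    rw [e1, e2]
  have hmul : ∀ (k k' : G) x, dc.sg k (dc.sg k' x) = dc.sg (k * k') x := fun k k' x =>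
    (h6 N n D l G hG B dc k x).2.2.2.2.2.2.1 k'
  have hone : ∀ x, dc.sg 1 x = x := fun x => (h6 N n D l G hG B dc 1 x).2.2.2.2.2.2.2.1
  have hc : ∀ k : G, Continuous (dc.sg k) := fun k => (sgA dc k).continuous
  set S : Set ((Fin D × Fin n → ℝ) × (Fin dc.M → ℝ)) := {x | nx x < 1 ^ 2} with hS
  have himg : sgL dc h '' S = S := by
    ext x
    constructor
    · rintro ⟨y, hy, rfl⟩
      change nx (dc.sg h y) < 1 ^ 2
      rw [hnx]
      exact hy
    · intro hx
      refine ⟨dc.sg h⁻¹ x, ?_, ?_⟩
      · change nx (dc.sg h⁻¹ x) < 1 ^ 2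
        rw [hnx]
        exact hx
      · change dc.sg h (dc.sg h⁻¹ x) = x
        rw [hmul, mul_inv_cancel, hone]
  have hHaar : (volume : Measure ((Fin D × Fin n → ℝ) × (Fin dc.M → ℝ))).IsAddHaarMeasure :=
    haar_vol _ _
  have h1 := Measure.addHaar_image_linearMap
    (volume : Measure ((Fin D × Fin n → ℝ) × (Fin dc.M → ℝ))) (sgL dc h) S
  rw [himg] at h1
  have hpos : (volume : Measure ((Fin D × Fin n → ℝ) × (Fin dc.M → ℝ))) S ≠ 0 := by
    refine ((open_nx (P := Fin D × Fin n) (Q := Fin dc.M) 1).measure_pos volume ⟨0, ?_⟩).ne'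
    change nx (0 : (Fin D × Fin n → ℝ) × (Fin dc.M → ℝ)) < 1 ^ 2
    simp [nx, n2]
  have hfin : (volume : Measure ((Fin D × Fin n → ℝ) × (Fin dc.M → ℝ))) S ≠ ⊤ := by
    refine ((measure_mono fun x hx => ?_).trans_lt
      (compact_nx (P := Fin D × Fin n) (Q := Fin dc.M) 1 zero_le_one).measure_lt_top).ne
    exact le_of_lt (show nx x < 1 ^ 2 from hx)
  have hdet : ENNReal.ofReal |LinearMap.det (sgL dc h)| = 1 := by
    have h2 : ENNReal.ofReal |LinearMap.det (sgL dc h)| *
        (volume : Measure ((Fin D × Fin n → ℝ) × (Fin dc.M → ℝ))) S =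
        1 * (volume : Measure ((Fin D × Fin n → ℝ) × (Fin dc.M → ℝ))) S := by
      rw [one_mul, ← h1]
    exact (ENNReal.mul_left_inj hpos hfin).1 h2
  have habs : |LinearMap.det (sgL dc h)| = 1 := by
    rw [ENNReal.ofReal_eq_one] at hdet
    exact hdet
  have hne : LinearMap.det (sgL dc h) ≠ 0 := by
    intro h0
    rw [h0, abs_zero] at habs
    exact zero_ne_one habs
  have hmap := Measure.map_linearMap_addHaar_eq_smul_addHaar
    (volume : Measure ((Fin D × Fin n → ℝ) × (Fin dc.M → ℝ))) hne
  rw [abs_inv, habs, inv_one, ENNReal.ofReal_one, one_smul] at hmap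
  refine ⟨⟨(hc h).measurable, hmap⟩, ?_⟩
  let e : ((Fin D × Fin n → ℝ) × (Fin dc.M → ℝ)) ≃ₜ ((Fin D × Fin n → ℝ) × (Fin dc.M → ℝ)) :=
    { toFun := dc.sg h
      invFun := dc.sg h⁻¹
      left_inv := fun x => by rw [hmul, inv_mul_cancel, hone]
      right_inv := fun x => by rw [hmul, mul_inv_cancel, hone]
      continuous_toFun := hc h
      continuous_invFun := hc h⁻¹ }
  exact e.measurableEmbedding

end adj

theorem t_CHI (h1 : S_THD) (h2 : S_HAARM) (h3 : S_TREE) (h4 : S_TGA) (h5 : S_CARD)
    (h6 : S_SYMM) (h7 : S_UNIQ) (h8 : S_FINC) : S_CHI := by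
  classical
  intro N n D l _ G hG B _ _ μ _ _ hNC dc
  have hcU : CompactSpace (UU N) := cs_UU N
  have hsM : SecondCountableTopology (Mt N) := sc_Mt N
  have hcG : CompactSpace G := isCompact_iff_compactSpace.1 hG.isCompact
  have h00 : SecondCountableTopology (UU N) := TopologicalSpace.Subtype.secondCountableTopology _
  have h01 : SecondCountableTopology G := TopologicalSpace.Subtype.secondCountableTopology _
  have hri : μ.IsMulRightInvariant := right_inv μ
  obtain ⟨hth0, hthc, hthd, hthx⟩ := h1 N n D l G hG B dc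
  have hcard : Fintype.card (Fin D × Fin n) + Fintype.card (Fin dc.M) =
      n * Fintype.card (NT D l) := by
    have e1 := h5 D l
    have e2 := dc.card
    simp only [Fintype.card_prod, Fintype.card_fin]
    have e3 : n * Fintype.card (NT D l) + n * l ^ D = n * (D * l ^ D) + n := by
      rw [← mul_add, e1]
      ring
    have e4 : D * l ^ D * n = n * (D * l ^ D) := by ring
    have e5 : l ^ D * n = n * l ^ D := by ring
    omega
  obtain ⟨rH, J0, hrH, hJ0, hJ0p, hint⟩ := h2 N n G hG B μ (Fin D × Fin n) (Fin dc.M) (NT D l)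
    hcard dc.th hthc hthd
  have hHaar : (volume : Measure ((Fin D × Fin n → ℝ) × (Fin dc.M → ℝ))).IsAddHaarMeasure :=
    haar_vol _ _
  obtain ⟨rU, hrU, huniq, -⟩ := h7 N n D l G hG B hNC dc
  have hfin : Finite (Subgroup.center G) := h8 N n G hG B hNC
  have : Fintype (Fin D → Subgroup.center G) := Fintype.ofFinite _
  -- properties of the adjoint action
  have hnx : ∀ (k : G) x, nx (dc.sg k x) = nx x := fun k x => by
    obtain ⟨-, e1, e2, -⟩ := h6 N n D l G hG B dc k x
    unfold nx
    rw [e1, e2]
  have hmul : ∀ (k k' : G) x, dc.sg k (dc.sg k' x) = dc.sg (k * k') x := fun k k' x =>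
    (h6 N n D l G hG B dc k x).2.2.2.2.2.2.1 k'
  have hch : ∀ (k : G) x, dc.ch (dc.sg k x) = gauge (fun _ => k) (dc.ch x) := fun k x =>
    (h6 N n D l G hG B dc k x).1
  have hchc : Continuous fun x => dc.ch x := by
    have e1 := (h6 N n D l G hG B dc 1 0).2.2.2.2.2.2.2.2.continuous
    exact continuous_pi fun e => cont_of_mt ((continuous_apply e).comp e1)
  have hthcont : Continuous dc.th :=
    continuous_pi fun e => cont_of_mt ((continuous_apply e).comp hthc.continuous)
  have hsgc : Continuous fun p : G × ((Fin D × Fin n → ℝ) × (Fin dc.M → ℝ)) =>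
      dc.sg p.1 p.2 :=
    ((cont_sgA dc).comp continuous_fst).clm_apply continuous_snd
  have hκ : (0 : ℝ) < (Fintype.card (Fin D → Subgroup.center G) : ℝ) := by
    have : 0 < Fintype.card (Fin D → Subgroup.center G) := Fintype.card_pos
    exact_mod_cast this
  set κ : ℝ := (Fintype.card (Fin D → Subgroup.center G) : ℝ) with hκdef
  -- the averaged density
  have hJc : ∀ x, Continuous fun k : G => J0 (dc.sg k x) := fun x =>
    hJ0.continuous.comp (cont_sg dc x)
  have hJi : ∀ x, Integrable (fun k : G => J0 (dc.sg k x)) μ := fun x => by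
    obtain ⟨C, hC⟩ := (isCompact_univ (X := G)).exists_bound_of_continuousOn (hJc x).continuousOn
    exact Integrable.of_bound (hJc x).aestronglyMeasurable C
      (Eventually.of_forall fun k => hC k trivial)
  refine ⟨min rH rU, fun x => κ * ∫ k, J0 (dc.sg k x) ∂μ, lt_min hrH hrU, ?_, ?_, ?_, ?_⟩
  · refine contDiff_const.mul ?_
    exact contDiff_avg μ (sgA dc) (cont_sgA dc)
      (fun p : (((Fin D × Fin n → ℝ) × (Fin dc.M → ℝ)) →L[ℝ]
        ((Fin D × Fin n → ℝ) × (Fin dc.M → ℝ))) × ((Fin D × Fin n → ℝ) × (Fin dc.M → ℝ)) =>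
        J0 (p.1 p.2))
      (hJ0.comp (contDiff_fst.clm_apply contDiff_snd))
  · intro x
    refine mul_pos hκ ?_
    rw [integral_pos_iff_support_of_nonneg (fun k => (hJ0p _).le) (hJi x)]
    have e1 : Function.support (fun k : G => J0 (dc.sg k x)) = univ :=
      eq_univ_of_forall fun k => (hJ0p _).ne'
    rw [e1, measure_univ]
    exact zero_lt_one
  · intro h x
    change κ * ∫ k, J0 (dc.sg k (dc.sg h x)) ∂μ = κ * ∫ k, J0 (dc.sg k x) ∂μ
    congr 1
    simp only [hmul]
    exact integral_mul_right_eq_self (μ := μ) (fun k => J0 (dc.sg k x)) h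
  · intro ρ hρ hρr Φ hΦc hΦg hΦz hΦs
    have hρH : ρ ≤ rH := hρr.trans (min_le_left _ _)
    have hρU : ρ ≤ rU := hρr.trans (min_le_right _ _)
    have hρ2 : ρ ^ 2 ≤ rU ^ 2 := pow_le_pow_left₀ hρ.le hρU 2
    set Sρ : Set ((Fin D × Fin n → ℝ) × (Fin dc.M → ℝ)) := {x | nx x < ρ ^ 2} with hSρ
    set Th : Set (NT D l → G) := dc.th '' Sρ with hTh
    set ν : Measure (NT D l → G) := Measure.pi fun _ : NT D l => μ with hν
    have hΦec : Continuous fun V : NT D l → G => Φ (ext V) := hΦc.comp cont_ext
    -- values of the function on the pieces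
    have hΦcz : ∀ (z : Fin D → Subgroup.center G) (V : NT D l → G),
        Φ (ext (cz z * V)) = Φ (ext V) := fun z V => by
      rw [ext_cz]
      exact hΦz _ (fun i => (z i).2) _
    have hΦth : ∀ x, Φ (ext (dc.th x)) = Φ (dc.ch x) := fun x => by
      rw [hthx x]
      exact hΦg _ _
    -- the pieces cover the support
    have hcover : ∀ V : NT D l → G, Φ (ext V) ≠ 0 →
        ∃ z : Fin D → Subgroup.center G, V ∈ (fun W => cz z * W) '' Th := by
      intro V hV
      obtain ⟨γ, z, x, hz, hx, hU⟩ := hΦs _ hV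
      refine ⟨fun i => ⟨z i, hz i⟩, dc.th (dc.sg (γ 0) x), ⟨dc.sg (γ 0) x, ?_, rfl⟩, ?_⟩
      · change nx (dc.sg (γ 0) x) < ρ ^ 2
        rw [hnx]
        exact hx
      · refine ext_inj ?_
        change ext (cz (fun i => (⟨z i, hz i⟩ : Subgroup.center G)) * dc.th (dc.sg (γ 0) x)) =
          ext V
        rw [ext_cz, hthx, hch]
        have e1 : tg (ext V) = ext V := (h4 N D l G (ext V)).2.2.2 (ext_tree V)
        rw [← e1, hU, (h4 N D l G _).2.1 γ, (h4 N D l G _).2.2.1 z hz,
          (h4 N D l G _).2.1 (fun _ => γ 0)]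
        exact centre_gauge z hz _ _
    -- the pieces are disjoint
    have hdisj : Pairwise (Function.onFun Disjoint
        fun z : Fin D → Subgroup.center G => (fun W : NT D l → G => cz z * W) '' Th) := by
      intro z z' hzz
      rw [Function.onFun, Set.disjoint_left]
      rintro V ⟨W, ⟨x, hx, rfl⟩, rfl⟩ ⟨W', ⟨y, hy, rfl⟩, hWW⟩
      apply hzz
      have hx' : nx x < rU ^ 2 := lt_of_lt_of_le hx hρ2
      have hy' : nx y < rU ^ 2 := lt_of_lt_of_le hy hρ2
      have e1 : ext (cz z * dc.th x) = ext (cz z' * dc.th y) := by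
        have : cz z' * dc.th y = cz z * dc.th x := hWW
        rw [this]
      rw [ext_cz, ext_cz, hthx, hthx] at e1
      have hzc : ∀ i, ((z i : Subgroup.center G) : G) ∈ Subgroup.center G := fun i => (z i).2
      have hzc' : ∀ i, ((z' i : Subgroup.center G) : G) ∈ Subgroup.center G := fun i => (z' i).2
      change centre _ (gauge (pth (dc.ch x)) (dc.ch x)) =
        centre _ (gauge (pth (dc.ch y)) (dc.ch y)) at e1
      rw [centre_gauge _ hzc, centre_gauge _ hzc'] at e1
      have e2 := congrArg (fun U => centre (fun i => (((z i : Subgroup.center G) : G))⁻¹)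
        (gauge (fun p => (pth (dc.ch x) p)⁻¹) U)) e1
      simp only [gauge_gauge, inv_mul_cancel, gauge_one, centre_centre, centre_one] at e2
      have hzi : ∀ i, (((z i : Subgroup.center G) : G))⁻¹ ∈ Subgroup.center G :=
        fun i => inv_mem (hzc i)
      rw [centre_gauge _ hzi, centre_centre] at e2
      obtain ⟨e3, -⟩ := huniq _ _ x y (fun i => mul_mem (hzi i) (hzc' i)) hx' hy' e2
      funext i
      have e4 := e3 i
      rw [inv_mul_eq_one] at e4
      exact Subtype.ext e4
    -- measurability of the pieces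
    have hThm : MeasurableSet Th := by
      have e1 : Sρ = ⋃ k : ℕ, {x | nx x ≤ ρ ^ 2 * (1 - 1 / ((k : ℝ) + 1))} := by
        refine Set.ext fun x => ?_
        rw [Set.mem_iUnion]
        constructor
        · intro hx
          have hx' : nx x < ρ ^ 2 := hx
          have hρ0 : 0 < ρ ^ 2 := by positivity
          obtain ⟨k, hk⟩ := exists_nat_one_div_lt
            (show 0 < (ρ ^ 2 - nx x) / ρ ^ 2 from div_pos (by linarith) hρ0)
          refine ⟨k, ?_⟩
          change nx x ≤ ρ ^ 2 * (1 - 1 / ((k : ℝ) + 1))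
          rw [lt_div_iff₀ hρ0] at hk
          nlinarith
        · rintro ⟨k, hk⟩
          have hk' : nx x ≤ ρ ^ 2 * (1 - 1 / ((k : ℝ) + 1)) := hk
          have hρ0 : 0 < ρ ^ 2 := by positivity
          have e2 : 0 < 1 / ((k : ℝ) + 1) := by positivity
          change nx x < ρ ^ 2
          nlinarith
      rw [hTh, e1, Set.image_iUnion]
      refine MeasurableSet.iUnion fun k => ?_
      refine IsClosed.measurableSet (IsCompact.isClosed (IsCompact.image ?_ hthcont))
      refine (compact_nx (P := Fin D × Fin n) (Q := Fin dc.M) ρ hρ.le).of_isClosed_subset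
        (isClosed_le cont_nx continuous_const) fun x hx => ?_
      have hk' : nx x ≤ ρ ^ 2 * (1 - 1 / ((k : ℝ) + 1)) := hx
      have e2 : 0 < 1 / ((k : ℝ) + 1) := by positivity
      have hρ0 : 0 < ρ ^ 2 := by positivity
      change nx x ≤ ρ ^ 2
      nlinarith
    have hemb : ∀ z : Fin D → Subgroup.center G,
        MeasurableEmbedding fun W : NT D l → G => cz z * W := fun z =>
      measurableEmbedding_mulLeft _
    have hΦi : Integrable (fun V : NT D l → G => Φ (ext V)) ν := by
      obtain ⟨C, hC⟩ := (isCompact_univ (X := NT D l → G)).exists_bound_of_continuousOn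
        hΦec.continuousOn
      exact Integrable.of_bound hΦec.aestronglyMeasurable C
        (Eventually.of_forall fun k => hC k trivial)
    -- the integral over the group
    have hA : ∫ U, Φ U ∂(Measure.pi fun _ : Link D l => μ) =
        κ * ∫ x in Sρ, Φ (dc.ch x) * J0 x := by
      rw [h3 N D l G hG μ Φ hΦc hΦg]
      have e1 : ∫ V, Φ (ext V) ∂ν =
          ∫ V in ⋃ z : Fin D → Subgroup.center G, (fun W => cz z * W) '' Th, Φ (ext V) ∂ν := by
        symm
        refine setIntegral_eq_integral_of_forall_compl_eq_zero fun V hV => ?_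
        by_contra h
        exact hV (Set.mem_iUnion.2 (hcover V h))
      change ∫ V, Φ (ext V) ∂ν = _
      rw [e1, integral_iUnion_fintype (fun z => (hemb z).measurableSet_image.2 hThm) hdisj
        fun z => hΦi.integrableOn]
      have e2 : ∀ z : Fin D → Subgroup.center G,
          ∫ V in (fun W => cz z * W) '' Th, Φ (ext V) ∂ν = ∫ x in Sρ, Φ (dc.ch x) * J0 x := by
        intro z
        rw [(measurePreserving_mul_left ν (cz z)).setIntegral_image_emb (hemb z)
          (fun V => Φ (ext V)) Th]
        simp only [hΦcz]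
        rw [hTh, hSρ, hint ρ hρ hρH (fun V => Φ (ext V)) hΦec]
        simp only [hΦth]
      simp only [e2, Finset.sum_const, Finset.card_univ, nsmul_eq_mul]
      rfl
    rw [hA]
    -- average over the adjoint action
    have hB : ∀ k : G, ∫ x in Sρ, Φ (dc.ch x) * J0 (dc.sg k x) =
        ∫ x in Sρ, Φ (dc.ch x) * J0 x := by
      intro k
      obtain ⟨e1, e2⟩ := mp_sg dc hG h6 k
      have e4 := e1.setIntegral_preimage_emb e2 (fun x => Φ (dc.ch x) * J0 x) Sρ
      have e3 : dc.sg k ⁻¹' Sρ = Sρ := by
        refine Set.ext fun x => ?_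
        change nx (dc.sg k x) < ρ ^ 2 ↔ nx x < ρ ^ 2
        rw [hnx]
      rw [e3] at e4
      rw [← e4]
      refine setIntegral_congr_fun (open_nx ρ).measurableSet fun x _ => ?_
      change Φ (dc.ch x) * J0 (dc.sg k x) = Φ (dc.ch (dc.sg k x)) * J0 (dc.sg k x)
      rw [hch, hΦg]
    have hC := avg_int volume μ Sρ _ (open_nx ρ).measurableSet
      (compact_nx (P := Fin D × Fin n) (Q := Fin dc.M) ρ hρ.le)
      (fun x hx => show nx x ≤ ρ ^ 2 from le_of_lt hx) (fun x => Φ (dc.ch x)) J0 dc.sg
      (hΦc.comp hchc) hJ0.continuous hsgc hB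
    rw [← hC, ← integral_const_mul]
    refine integral_congr_ae (Eventually.of_forall fun x => ?_)
    simp only
    ring

end

end Pool.Agent.Q52.LU
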