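import Mathlib
import Pool.Agent.Q77.LU.StmH

/-!
# Project LU, job CHI: general facts

Averages of smooth functions over a compact group, right invariance, the adjoint action in the
coordinates of the chart.
-/

set_option autoImplicit false

namespace Pool.Agent.Q52.LU

open Pool.Agent.Q77.LU MeasureTheory Matrix Set Filter Topology
open scoped ContDiff Matrix.Norms.Frobenius

noncomputable section

/-- A Haar probability measure is invariant under right multiplications. -/
lemma right_inv {H : Type*} [Group H] [TopologicalSpace H] [IsTopologicalGroup H]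
    [CompactSpace H] [MeasurableSpace H] [BorelSpace H] (μ : Measure H)
    [IsProbabilityMeasure μ] [μ.IsHaarMeasure] : μ.IsMulRightInvariant := by
  refine ⟨fun g => ?_⟩
  have h1 : IsProbabilityMeasure (Measure.map (fun x => x * g) μ) :=
    Measure.isProbabilityMeasure_map (measurable_mul_const g).aemeasurable
  exact Measure.isHaarMeasure_eq_of_isProbabilityMeasure _ _

/-- Integrals over a compact space of a smooth function composed with a continuous family. -/
theorem contDiff_avg_aux {E L K : Type} [NormedAddCommGroup E] [NormedSpace ℝ E]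
    [FiniteDimensional ℝ E] [NormedAddCommGroup L] [NormedSpace ℝ L] [TopologicalSpace K]
    [CompactSpace K] [SecondCountableTopology K] [MeasurableSpace K] [BorelSpace K]
    (μ : Measure K) [IsFiniteMeasure μ] (A : K → L) (hA : Continuous A) (m : ℕ) :
    ∀ (G : Type) [NormedAddCommGroup G] [NormedSpace ℝ G] [CompleteSpace G] (F : L × E → G),
    ContDiff ℝ m F → ContDiff ℝ m (fun x : E => ∫ k, F (A k, x) ∂μ) := by
  have hproper : ProperSpace E := FiniteDimensional.proper_real E
  induction m with
  | zero =>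
    intro G _ _ _ F hF
    have h0 : Continuous (Function.uncurry fun (x : E) (k : K) => F (A k, x)) :=
      hF.continuous.comp ((hA.comp continuous_snd).prodMk continuous_fst)
    have h1 := continuous_parametric_integral_of_continuous (μ := μ) h0 (isCompact_univ (X := K))
    simp only [Measure.restrict_univ] at h1
    exact contDiff_zero.mpr h1
  | succ m ih =>
    intro G _ _ _ F hF
    have hF' : ContDiff ℝ ((m : WithTop ℕ∞) + 1) F := by exact_mod_cast hF
    have hcF : Continuous F := hF'.continuous
    set D : L × E → (E →L[ℝ] G) := fun p =>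
      (fderiv ℝ F p).comp (ContinuousLinearMap.inr ℝ L E) with hD
    have hDc : ContDiff ℝ m D := by
      have h1 : ContDiff ℝ m (fderiv ℝ F) := hF'.fderiv_right le_rfl
      exact h1.clm_comp contDiff_const
    have hDcont : Continuous D := hDc.continuous
    have hder : ∀ (x : E) (k : K), HasFDerivAt (fun x => F (A k, x)) (D (A k, x)) x := by
      intro x k
      have h1 : HasFDerivAt F (fderiv ℝ F (A k, x)) (A k, x) :=
        (hF'.differentiable (by simp) (A k, x)).hasFDerivAt
      have h2 : HasFDerivAt (𝕜 := ℝ) (fun e : E => (A k, e)) (ContinuousLinearMap.inr ℝ L E) x :=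
        hasFDerivAt_prodMk_right (A k) x
      exact HasFDerivAt.comp (g := F) (f := fun e : E => (A k, e)) x h1 h2
    have key : ContDiff ℝ ((m : WithTop ℕ∞) + 1) (fun x : E => ∫ k, F (A k, x) ∂μ) := by
      rw [contDiff_succ_iff_hasFDerivAt]
      refine ⟨fun x => ∫ k, D (A k, x) ∂μ, ih (E →L[ℝ] G) D hDc, fun x => ?_⟩
      have hAc : ∀ y : E, Continuous fun k : K => (A k, y) := fun y => hA.prodMk continuous_const
      obtain ⟨C, hC⟩ := ((isCompact_closedBall x 1).prod (isCompact_univ (X := K))
        ).exists_bound_of_continuousOn (f := fun p : E × K => D (A p.2, p.1))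
        (hDcont.comp ((hA.comp continuous_snd).prodMk continuous_fst)).continuousOn
      refine hasFDerivAt_integral_of_dominated_of_fderiv_le (F' := fun x k => D (A k, x))
        (s := Metric.closedBall x 1) (bound := fun _ => C)
        (Metric.closedBall_mem_nhds x one_pos) ?_ ?_ ?_ ?_ ?_ ?_
      · exact Eventually.of_forall fun y => (hcF.comp (hAc y)).aestronglyMeasurable
      · obtain ⟨C', hC'⟩ := (isCompact_univ (X := K)).exists_bound_of_continuousOn
          (hcF.comp (hAc x)).continuousOn
        exact Integrable.of_bound (hcF.comp (hAc x)).aestronglyMeasurable C'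
          (Eventually.of_forall fun k => hC' k trivial)
      · exact (hDcont.comp (hAc x)).aestronglyMeasurable
      · exact Eventually.of_forall fun k y hy => hC (y, k) ⟨hy, trivial⟩
      · exact integrable_const C
      · exact Eventually.of_forall fun k y _ => hder y k
    exact_mod_cast key

theorem contDiff_avg {E L K : Type} [NormedAddCommGroup E] [NormedSpace ℝ E]
    [FiniteDimensional ℝ E] [NormedAddCommGroup L] [NormedSpace ℝ L] [TopologicalSpace K]
    [CompactSpace K] [SecondCountableTopology K] [MeasurableSpace K] [BorelSpace K]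
    (μ : Measure K) [IsFiniteMeasure μ] (A : K → L) (hA : Continuous A) (F : L × E → ℝ)
    (hF : ContDiff ℝ ∞ F) : ContDiff ℝ ∞ (fun x : E => ∫ k, F (A k, x) ∂μ) := by
  rw [contDiff_infty]
  intro m
  exact contDiff_avg_aux μ A hA m ℝ F (hF.of_le (by exact_mod_cast le_top))

/-- Exchange of the integrals over a compact space and over a set with compact closure. -/
theorem fub {E K : Type} [TopologicalSpace E] [T2Space E] [SecondCountableTopology E]
    [MeasurableSpace E] [BorelSpace E]
    (lam : Measure E) [IsFiniteMeasureOnCompacts lam] [SFinite lam] [TopologicalSpace K]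
    [CompactSpace K] [SecondCountableTopology K] [MeasurableSpace K] [BorelSpace K]
    (μ : Measure K) [IsFiniteMeasure μ] (S C : Set E) (hS : MeasurableSet S) (hC : IsCompact C)
    (hSC : S ⊆ C) (f : E → K → ℝ) (hf : Continuous (Function.uncurry f)) :
    ∫ x in S, ∫ k, f x k ∂μ ∂lam = ∫ k, ∫ x in S, f x k ∂lam ∂μ := by
  apply integral_integral_swap
  have e3 : (lam.restrict S).prod μ = (lam.prod μ).restrict (S ×ˢ univ) := by
    rw [← Measure.prod_restrict, Measure.restrict_univ]
  obtain ⟨B, hB⟩ := (hC.prod (isCompact_univ (X := K))).exists_bound_of_continuousOn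
    hf.continuousOn
  have : IsFiniteMeasure (lam.restrict S) :=
    ⟨by rw [Measure.restrict_apply_univ]; exact (measure_mono hSC).trans_lt hC.measure_lt_top⟩
  refine Integrable.of_bound hf.measurable.aestronglyMeasurable B ?_
  rw [e3]
  exact ae_restrict_of_forall_mem (hS.prod MeasurableSet.univ) fun p hp =>
    hB p ⟨hSC hp.1, trivial⟩

theorem avg_int {E K : Type} [TopologicalSpace E] [T2Space E] [SecondCountableTopology E]
    [MeasurableSpace E] [BorelSpace E]
    (lam : Measure E) [IsFiniteMeasureOnCompacts lam] [SFinite lam] [TopologicalSpace K]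
    [CompactSpace K] [SecondCountableTopology K] [MeasurableSpace K] [BorelSpace K]
    (μ : Measure K) [IsProbabilityMeasure μ] (S C : Set E) (hS : MeasurableSet S)
    (hC : IsCompact C) (hSC : S ⊆ C) (φ J : E → ℝ) (σ : K → E → E) (hφ : Continuous φ)
    (hJ : Continuous J) (hσ : Continuous fun p : K × E => σ p.1 p.2)
    (hinv : ∀ k, ∫ x in S, φ x * J (σ k x) ∂lam = ∫ x in S, φ x * J x ∂lam) :
    ∫ x in S, φ x * ∫ k, J (σ k x) ∂μ ∂lam = ∫ x in S, φ x * J x ∂lam := by
  have e1 : ∫ x in S, φ x * ∫ k, J (σ k x) ∂μ ∂lam =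
      ∫ x in S, ∫ k, φ x * J (σ k x) ∂μ ∂lam := by
    refine integral_congr_ae (Eventually.of_forall fun x => ?_)
    simp only
    rw [integral_const_mul]
  rw [e1, fub lam μ S C hS hC hSC (fun x k => φ x * J (σ k x))
    ((hφ.comp continuous_fst).mul (hJ.comp (hσ.comp (continuous_snd.prodMk continuous_fst))))]
  simp only [hinv]
  rw [integral_const, probReal_univ, one_smul]

lemma haar_vol (P Q : Type) [Fintype P] [Fintype Q] :
    (volume : Measure ((P → ℝ) × (Q → ℝ))).IsAddHaarMeasure := by
  have h1 : (volume : Measure (P → ℝ)).IsAddHaarMeasure := by infer_instance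
  have h2 : (volume : Measure (Q → ℝ)).IsAddHaarMeasure := by infer_instance
  exact Measure.prod.instIsAddHaarMeasure volume volume

lemma sc_Mt (N : ℕ) : SecondCountableTopology (Mt N) :=
  inferInstanceAs (SecondCountableTopology (Fin N → Fin N → ℂ))

lemma compact_UU (N : ℕ) : IsCompact (UU N : Set (Mt N)) := by
  have h1 : IsCompact (Set.pi Set.univ fun _ : Fin N => Set.pi Set.univ fun _ : Fin N =>
      Metric.closedBall (0 : ℂ) 1) :=
    isCompact_univ_pi fun _ => isCompact_univ_pi fun _ => isCompact_closedBall _ _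
  refine IsCompact.of_isClosed_subset h1 ?_ ?_
  · have h2 : (UU N : Set (Mt N)) = {A | A * star A = 1} := by
      ext A
      exact Matrix.mem_unitaryGroup_iff
    rw [h2]
    exact isClosed_eq (continuous_id.mul continuous_star) continuous_const
  · intro A hA i _ j _
    rw [mem_closedBall_zero_iff]
    exact entry_norm_bound_of_unitary hA i j

lemma cs_UU (N : ℕ) : CompactSpace (UU N) := isCompact_iff_compactSpace.1 (compact_UU N)

/-! ### lengths -/

section len

variable {P Q : Type} [Fintype P] [Fintype Q]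

lemma n2_nonneg (x : P → ℝ) : 0 ≤ n2 x := Finset.sum_nonneg fun _ _ => sq_nonneg _

lemma cont_n2 : Continuous (fun x : P → ℝ => n2 x) := by
  unfold n2
  fun_prop

lemma cont_nx : Continuous (fun x : (P → ℝ) × (Q → ℝ) => nx x) :=
  (cont_n2.comp continuous_fst).add (cont_n2.comp continuous_snd)

lemma nx_nonneg (x : (P → ℝ) × (Q → ℝ)) : 0 ≤ nx x := add_nonneg (n2_nonneg _) (n2_nonneg _)

lemma sub_ball (ρ : ℝ) (hρ : 0 ≤ ρ) :
    {x : (P → ℝ) × (Q → ℝ) | nx x ≤ ρ ^ 2} ⊆ Metric.closedBall 0 ρ := by
  intro x hx
  have hx' : n2 x.1 + n2 x.2 ≤ ρ ^ 2 := hx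
  rw [mem_closedBall_zero_iff, Prod.norm_def, sup_le_iff]
  constructor
  · rw [pi_norm_le_iff_of_nonneg hρ]
    intro i
    have h1 : x.1 i ^ 2 ≤ n2 x.1 :=
      Finset.single_le_sum (f := fun i => x.1 i ^ 2) (fun _ _ => sq_nonneg _) (Finset.mem_univ i)
    have h2 := n2_nonneg x.2
    rw [Real.norm_eq_abs]
    exact abs_le_of_sq_le_sq (by linarith) hρ
  · rw [pi_norm_le_iff_of_nonneg hρ]
    intro i
    have h1 : x.2 i ^ 2 ≤ n2 x.2 :=
      Finset.single_le_sum (f := fun i => x.2 i ^ 2) (fun _ _ => sq_nonneg _) (Finset.mem_univ i)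
    have h2 := n2_nonneg x.1
    rw [Real.norm_eq_abs]
    exact abs_le_of_sq_le_sq (by linarith) hρ

lemma compact_nx (ρ : ℝ) (hρ : 0 ≤ ρ) : IsCompact {x : (P → ℝ) × (Q → ℝ) | nx x ≤ ρ ^ 2} :=
  Metric.isCompact_of_isClosed_isBounded (isClosed_le cont_nx continuous_const)
    (Metric.isBounded_closedBall.subset (sub_ball ρ hρ))

lemma open_nx (ρ : ℝ) : IsOpen {x : (P → ℝ) × (Q → ℝ) | nx x < ρ ^ 2} :=
  isOpen_lt cont_nx continuous_const

end len

/-! ### linearity of the adjoint action -/

section lin

variable {N n D l : ℕ} {G : Subgroup (UU N)} {B : LieBasis G n}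

lemma lin_add (v w : Fin n → ℝ) : lin B (v + w) = lin B v + lin B w := by
  simp only [lin, Pi.add_apply, add_smul, Finset.sum_add_distrib]

lemma lin_smul (c : ℝ) (v : Fin n → ℝ) : lin B (c • v) = c • lin B v := by
  simp only [lin, Pi.smul_apply, smul_eq_mul, mul_smul, Finset.smul_sum]

lemma Ad_add (h : G) (v w : Fin n → ℝ) : Ad B h (v + w) = Ad B h v + Ad B h w := by
  funext a
  simp only [Ad, lin_add, Matrix.mul_add, Matrix.add_mul, Matrix.trace_add, Complex.add_re,
    Pi.add_apply]

lemma Ad_smul (h : G) (c : ℝ) (v : Fin n → ℝ) : Ad B h (c • v) = c • Ad B h v := by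
  funext a
  simp only [Ad, lin_smul, Matrix.mul_smul, Matrix.smul_mul, Matrix.trace_smul, Pi.smul_apply,
    Complex.real_smul, Complex.re_ofReal_mul, smul_eq_mul]

lemma adF_add {ι : Type} (h : G) (y z : ι × Fin n → ℝ) :
    adF B h (y + z) = adF B h y + adF B h z := by
  funext p
  exact congrFun (Ad_add h (fun c => y (p.1, c)) fun c => z (p.1, c)) p.2

lemma adF_smul {ι : Type} (h : G) (c : ℝ) (y : ι × Fin n → ℝ) :
    adF B h (c • y) = c • adF B h y := by
  funext p
  exact congrFun (Ad_smul h c fun b => y (p.1, b)) p.2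

variable [NeZero l] (dc : Dec B D l)

/-- the adjoint action as a linear map -/
def sgL (h : G) : ((Fin D × Fin n → ℝ) × (Fin dc.M → ℝ)) →ₗ[ℝ]
    ((Fin D × Fin n → ℝ) × (Fin dc.M → ℝ)) where
  toFun := dc.sg h
  map_add' x y := by
    refine Prod.ext (adF_add h x.1 y.1) ?_
    funext i
    have h1 : (fun q => ∑ j, (x.2 + y.2) j * dc.b j q) =
        (fun q => ∑ j, x.2 j * dc.b j q) + fun q => ∑ j, y.2 j * dc.b j q := by
      funext q
      simp only [Pi.add_apply, add_mul, Finset.sum_add_distrib]
    change ∑ p, dc.b i p * adF B h (fun q => ∑ j, (x.2 + y.2) j * dc.b j q) p =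
      (∑ p, dc.b i p * adF B h (fun q => ∑ j, x.2 j * dc.b j q) p) +
        ∑ p, dc.b i p * adF B h (fun q => ∑ j, y.2 j * dc.b j q) p
    rw [h1, adF_add]
    simp only [Pi.add_apply, mul_add, Finset.sum_add_distrib]
  map_smul' c x := by
    refine Prod.ext (adF_smul h c x.1) ?_
    funext i
    have h1 : (fun q => ∑ j, (c • x.2) j * dc.b j q) = c • fun q => ∑ j, x.2 j * dc.b j q := by
      funext q
      simp only [Pi.smul_apply, smul_eq_mul, Finset.mul_sum, mul_assoc]
    change ∑ p, dc.b i p * adF B h (fun q => ∑ j, (c • x.2) j * dc.b j q) p =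
      c * ∑ p, dc.b i p * adF B h (fun q => ∑ j, x.2 j * dc.b j q) p
    rw [h1, adF_smul, Finset.mul_sum]
    refine Finset.sum_congr rfl fun p _ => ?_
    simp only [Pi.smul_apply, smul_eq_mul]
    ring

lemma cont_mt : Continuous (fun g : G => mt g) := continuous_subtype_val.comp continuous_subtype_val

lemma cont_of_mt {X : Type*} [TopologicalSpace X] {f : X → G} (h : Continuous fun x => mt (f x)) :
    Continuous f :=
  Continuous.subtype_mk (Continuous.subtype_mk h _) _

lemma cont_Ad (v : Fin n → ℝ) (a : Fin n) : Continuous (fun h : G => Ad B h v a) := by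
  unfold Ad
  have h1 : Continuous (fun h : G => mt h) := cont_mt
  exact Complex.continuous_re.comp (Continuous.matrix_trace (continuous_const.matrix_mul
    ((h1.matrix_mul continuous_const).matrix_mul h1.matrix_conjTranspose)))

lemma cont_adF {ι : Type} (y : ι × Fin n → ℝ) (p : ι × Fin n) :
    Continuous (fun h : G => adF B h y p) := cont_Ad _ _

lemma cont_sg (x : (Fin D × Fin n → ℝ) × (Fin dc.M → ℝ)) :
    Continuous (fun h : G => dc.sg h x) := by
  refine Continuous.prodMk (continuous_pi fun p => cont_adF _ _) (continuous_pi fun i => ?_)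
  exact continuous_finsetSum _ fun p _ => continuous_const.mul (cont_adF _ _)

/-- the adjoint action as a continuous family of operators -/
def sgA (h : G) : ((Fin D × Fin n → ℝ) × (Fin dc.M → ℝ)) →L[ℝ]
    ((Fin D × Fin n → ℝ) × (Fin dc.M → ℝ)) := LinearMap.toContinuousLinearMap (sgL dc h)

lemma sgA_apply (h : G) (x : (Fin D × Fin n → ℝ) × (Fin dc.M → ℝ)) :
    sgA dc h x = dc.sg h x := rfl

lemma cont_sgA : Continuous (sgA dc) := continuous_clm_apply.2 fun x => cont_sg dc x

end lin

end

end Pool.Agent.Q52.LU
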